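import Mathlib

/-!
# Separating eight points in space by three planes: the parts of the proof
-/

set_option autoImplicit false

namespace Pool.Agent.K3h39.Sep8

/-- Euclidean three-space. -/
abbrev E3 := EuclideanSpace ℝ (Fin 3)

/-- The affine function with the plane `⟪v, x⟫ = t` as its zero set. -/
noncomputable def ev (f : E3 × ℝ) (x : E3) : ℝ := inner ℝ f.1 x - f.2

lemma ev_add (f g : E3 × ℝ) (x : E3) : ev (f + g) x = ev f x + ev g x := by
  simp [ev, inner_add_left]; ring

lemma ev_smul (r : ℝ) (f : E3 × ℝ) (x : E3) : ev (r • f) x = r * ev f x := by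
  simp [ev, inner_smul_left]; ring

lemma ev_sub (f g : E3 × ℝ) (x : E3) : ev (f - g) x = ev f x - ev g x := by
  simp [ev, inner_sub_left]; ring

lemma ev_zero (x : E3) : ev 0 x = 0 := by simp [ev]

/-- No plane contains four points of `P`. -/
def GP (P : Finset E3) : Prop :=
  ∀ v : E3, v ≠ 0 → ∀ t : ℝ, (P.filter (fun x => inner ℝ v x = t)).card ≤ 3

/-- an affine function that vanishes at four points is zero -/
lemma eq_zero_of_four {P : Finset E3} (hP : GP P) (f : E3 × ℝ) (T : Finset E3) (hT : T ⊆ P)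
    (h4 : 4 ≤ T.card) (h : ∀ x ∈ T, ev f x = 0) : f = 0 := by
  obtain ⟨v, t⟩ := f
  by_cases hv : v = 0
  · subst hv
    have hne : T.Nonempty := Finset.card_pos.1 (by omega)
    obtain ⟨x, hx⟩ := hne
    have := h x hx
    simp [ev] at this
    simp [this]
  · exfalso
    have h1 := hP v hv t
    have h2 : T ⊆ P.filter (fun x => inner ℝ v x = t) := by
      intro x hx
      rw [Finset.mem_filter]
      refine ⟨hT hx, ?_⟩
      have := h x hx
      simp only [ev] at this
      linarith
    have h3 := Finset.card_le_card h2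
    omega

lemma inj4 {x y z w : E3} (h1 : x ≠ y) (h2 : x ≠ z) (h3 : x ≠ w) (h4 : y ≠ z) (h5 : y ≠ w)
    (h6 : z ≠ w) : Function.Injective ![x, y, z, w] := by
  intro u v huv
  fin_cases u <;> fin_cases v <;>
    first
      | rfl
      | exact absurd huv h1
      | exact absurd huv h2
      | exact absurd huv h3
      | exact absurd huv h4
      | exact absurd huv h5
      | exact absurd huv h6
      | exact absurd huv.symm h1
      | exact absurd huv.symm h2
      | exact absurd huv.symm h3
      | exact absurd huv.symm h4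
      | exact absurd huv.symm h5
      | exact absurd huv.symm h6

/-- interpolation at four points -/
lemma interp {P : Finset E3} (hP : GP P) (x : Fin 4 → E3) (hx : ∀ i, x i ∈ P)
    (hinj : Function.Injective x) (y : Fin 4 → ℝ) : ∃ f : E3 × ℝ, ∀ i, ev f (x i) = y i := by
  let L : (E3 × ℝ) →ₗ[ℝ] (Fin 4 → ℝ) :=
    { toFun := fun f i => ev f (x i)
      map_add' := fun f g => by funext i; exact ev_add f g (x i)
      map_smul' := fun r f => by funext i; simpa using ev_smul r f (x i) }
  have hL : Function.Injective L := by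
    rw [← LinearMap.ker_eq_bot, LinearMap.ker_eq_bot']
    intro f hf
    refine eq_zero_of_four hP f (Finset.univ.image x) ?_ ?_ ?_
    · intro z hz
      rw [Finset.mem_image] at hz
      obtain ⟨i, -, rfl⟩ := hz
      exact hx i
    · rw [Finset.card_image_of_injective _ hinj]; simp
    · intro z hz
      rw [Finset.mem_image] at hz
      obtain ⟨i, -, rfl⟩ := hz
      exact congrFun hf i
  have hdim : Module.finrank ℝ (E3 × ℝ) = Module.finrank ℝ (Fin 4 → ℝ) := by
    rw [Module.finrank_prod]; simp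
  have hS : Function.Surjective L := (LinearMap.injective_iff_surjective_of_finrank_eq_finrank hdim).1 hL
  obtain ⟨f, hf⟩ := hS y
  exact ⟨f, fun i => congrFun hf i⟩

/-- the number of `true` values is two -/
def Bal (s : Fin 4 → Bool) : Prop := (Finset.univ.filter (fun i => s i = true)).card = 2

instance (s : Fin 4 → Bool) : Decidable (Bal s) := by unfold Bal; infer_instance

/-- the combinatorial step: a tournament on four vertices has a vertex of score one or two -/
lemma tour (D : Fin 4 → Fin 4 → Bool) (h : ∀ i j, i ≠ j → D i j = !(D j i)) :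
    ∃ i, ∃ β : Bool, Bal (fun j => if j = i then β else D i j) := by
  have key : ∀ a b c d e f : Bool, ∃ i, ∃ β : Bool, Bal (fun j => if j = i then β else
      (![![false, a, b, c], ![!a, false, d, e], ![!b, !d, false, f], ![!c, !e, !f, false]] i j)) := by
    decide
  obtain ⟨i, β, hb⟩ := key (D 0 1) (D 0 2) (D 0 3) (D 1 2) (D 1 3) (D 2 3)
  refine ⟨i, β, ?_⟩
  convert hb using 2 with j
  by_cases hj : j = i
  · simp [hj]
  · simp only [hj, if_false]
    have h10 := h 1 0 (by decide)
    have h20 := h 2 0 (by decide)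
    have h30 := h 3 0 (by decide)
    have h21 := h 2 1 (by decide)
    have h31 := h 3 1 (by decide)
    have h32 := h 3 2 (by decide)
    clear h hb
    fin_cases i <;> fin_cases j <;>
      first
        | exact absurd rfl hj
        | rfl
        | exact h10
        | exact h20
        | exact h30
        | exact h21
        | exact h31
        | exact h32

/-- moving a plane through three points off these points, to prescribed sides -/
lemma perturb {P : Finset E3} (hP : GP P) (f : E3 × ℝ) (x : Fin 4 → E3) (hx : ∀ i, x i ∈ P)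
    (hinj : Function.Injective x) (h0 : ∀ i : Fin 4, i ≠ 3 → ev f (x i) = 0)
    (s : Fin 4 → ℝ) :
    ∃ F : E3 × ℝ, (∀ i : Fin 4, i ≠ 3 → (0 < ev F (x i) ↔ 0 < s i) ∧ (ev F (x i) = 0 ↔ s i = 0)) ∧
      ∀ z ∈ P, ev f z ≠ 0 → (0 < ev F z ↔ 0 < ev f z) ∧ ev F z ≠ 0 := by
  obtain ⟨g, hg⟩ := interp hP x hx hinj s
  -- a bound
  obtain ⟨δ, hδ, hδ2⟩ : ∃ δ : ℝ, 0 < δ ∧ ∀ z ∈ P, ev f z ≠ 0 → δ * |ev g z| < |ev f z| := by
    have : ∀ z ∈ P, ∃ δ : ℝ, 0 < δ ∧ ∀ δ', 0 < δ' → δ' ≤ δ → (ev f z ≠ 0 → δ' * |ev g z| < |ev f z|) := by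
      intro z _
      by_cases hz : ev f z = 0
      · exact ⟨1, one_pos, fun _ _ _ h => absurd hz h⟩
      · have h1 : 0 < |ev f z| := abs_pos.2 hz
        refine ⟨|ev f z| / (|ev g z| + 1), by positivity, fun δ' h2 h3 _ => ?_⟩
        have h4 : 0 ≤ |ev g z| := abs_nonneg _
        calc δ' * |ev g z| < δ' * (|ev g z| + 1) := by
              apply mul_lt_mul_of_pos_left _ h2; linarith
          _ ≤ |ev f z| / (|ev g z| + 1) * (|ev g z| + 1) := by gcongr
          _ = |ev f z| := by field_simp
    choose! δ hδ1 hδ2 using this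
    by_cases hne : P.Nonempty
    · obtain ⟨z0, hz0, hmin⟩ := P.exists_min_image δ hne
      exact ⟨δ z0, hδ1 z0 hz0, fun z hz => hδ2 z hz (δ z0) (hδ1 z0 hz0) (hmin z hz)⟩
    · exact ⟨1, one_pos, fun z hz => absurd ⟨z, hz⟩ hne⟩
  refine ⟨f + δ • g, fun i hi => ?_, fun z hz hfz => ?_⟩
  · rw [ev_add, ev_smul, h0 i hi, hg i, zero_add]
    constructor
    · exact mul_pos_iff_of_pos_left hδ
    · simp [hδ.ne']
  · have h1 := hδ2 z hz hfz
    rw [ev_add, ev_smul]
    have h2 : |δ * ev g z| < |ev f z| := by rw [abs_mul, abs_of_pos hδ]; exact h1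
    rcases lt_or_gt_of_ne hfz with h | h
    · rw [abs_of_neg h] at h2
      have h3 := (abs_lt.1 h2).2
      constructor
      · constructor
        · intro h4; linarith
        · intro h4; linarith
      · intro h4; linarith
    · rw [abs_of_pos h] at h2
      have h3 := (abs_lt.1 h2).1
      constructor
      · constructor
        · intro h4; linarith
        · intro h4; linarith
      · intro h4; linarith

/-- the sign of an affine function at a point -/
noncomputable def sg (F : E3 × ℝ) (x : E3) : Bool := by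
  classical exact decide (0 < ev F x)

lemma sg_true {F : E3 × ℝ} {x : E3} : sg F x = true ↔ 0 < ev F x := by
  classical
  simp [sg]

/-- **Discrete ham sandwich** for two pairs and a quadruple. -/
lemma ham {P : Finset E3} (hP : GP P) (a b c d : E3) (e : Fin 4 → E3)
    (ha : a ∈ P) (hb : b ∈ P) (hc : c ∈ P) (hd : d ∈ P) (he : ∀ i, e i ∈ P)
    (hinj : Function.Injective e) (hab : a ≠ b) (hac : a ≠ c) (had : a ≠ d) (hbc : b ≠ c)
    (_hbd : b ≠ d) (hcd : c ≠ d) (hea : ∀ i, e i ≠ a) (heb : ∀ i, e i ≠ b) (hec : ∀ i, e i ≠ c)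
    (hed : ∀ i, e i ≠ d) :
    ∃ F : E3 × ℝ, ev F a ≠ 0 ∧ ev F b ≠ 0 ∧ ev F c ≠ 0 ∧ ev F d ≠ 0 ∧ (∀ i, ev F (e i) ≠ 0) ∧
      sg F a ≠ sg F b ∧ sg F c ≠ sg F d ∧ Bal (fun i => sg F (e i)) := by
  classical
  have he01 : e 0 ≠ e 1 := fun h => by have := hinj h; simp at this
  -- the two functions
  have hinj4 : ∀ i j : Fin 4, i ≠ j → Function.Injective ![a, c, e i, e j] := by
    intro i j hij
    exact inj4 hac (hea i).symm (hea j).symm (hec i).symm (hec j).symm (fun h => hij (hinj h))
  have hmem4 : ∀ i j : Fin 4, ∀ k, ![a, c, e i, e j] k ∈ P := by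
    intro i j k
    fin_cases k <;> simp [ha, hc, he]
  obtain ⟨φ, hφ⟩ := interp hP ![a, c, e 0, e 1] (hmem4 0 1) (hinj4 0 1 (by decide)) ![0, 0, 1, 0]
  obtain ⟨ψ, hψ⟩ := interp hP ![a, c, e 0, e 1] (hmem4 0 1) (hinj4 0 1 (by decide)) ![0, 0, 0, 1]
  have hφa : ev φ a = 0 := by simpa using hφ 0
  have hφc : ev φ c = 0 := by simpa using hφ 1
  have hφ0 : ev φ (e 0) = 1 := by simpa using hφ 2
  have hφ1 : ev φ (e 1) = 0 := by simpa using hφ 3
  have hψa : ev ψ a = 0 := by simpa using hψ 0
  have hψc : ev ψ c = 0 := by simpa using hψ 1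
  have hψ0 : ev ψ (e 0) = 0 := by simpa using hψ 2
  have hψ1 : ev ψ (e 1) = 1 := by simpa using hψ 3
  let f : Fin 4 → E3 × ℝ := fun i => ev φ (e i) • ψ - ev ψ (e i) • φ
  have hf : ∀ i x, ev (f i) x = ev φ (e i) * ev ψ x - ev ψ (e i) * ev φ x := by
    intro i x
    simp only [f]
    rw [ev_sub, ev_smul, ev_smul]
  have hfa : ∀ i, ev (f i) a = 0 := fun i => by rw [hf, hφa, hψa]; ring
  have hfc : ∀ i, ev (f i) c = 0 := fun i => by rw [hf, hφc, hψc]; ring
  have hfi : ∀ i, ev (f i) (e i) = 0 := fun i => by rw [hf]; ring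
  -- four points
  have four : ∀ (g : E3 × ℝ) (x y z w : E3), x ∈ P → y ∈ P → z ∈ P → w ∈ P → x ≠ y → x ≠ z →
      x ≠ w → y ≠ z → y ≠ w → z ≠ w → ev g x = 0 → ev g y = 0 → ev g z = 0 → ev g w = 0 → g = 0 := by
    intro g x y z w hx hy hz hw h1 h2 h3 h4 h5 h6 g1 g2 g3 g4
    refine eq_zero_of_four hP g {x, y, z, w} ?_ ?_ ?_
    · intro u hu
      simp only [Finset.mem_insert, Finset.mem_singleton] at hu
      rcases hu with rfl | rfl | rfl | rfl <;> assumption
    · rw [Finset.card_insert_of_notMem, Finset.card_insert_of_notMem,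
        Finset.card_insert_of_notMem, Finset.card_singleton]
      · simpa using h6
      · simp [h4, h5]
      · simp [h1, h2, h3]
    · intro u hu
      simp only [Finset.mem_insert, Finset.mem_singleton] at hu
      rcases hu with rfl | rfl | rfl | rfl <;> assumption
  have hfne : ∀ i, f i ≠ 0 := by
    intro i hi
    have h0 : ev (f i) (e 0) = 0 := by rw [hi]; exact ev_zero _
    have h1 : ev (f i) (e 1) = 0 := by rw [hi]; exact ev_zero _
    rw [hf, hφ0, hψ0] at h0
    rw [hf, hφ1, hψ1] at h1
    have h2 : ev ψ (e i) = 0 := by linarith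
    have h3 : ev φ (e i) = 0 := by linarith
    by_cases hi0 : i = 0
    · rw [hi0, hφ0] at h3; exact one_ne_zero h3
    by_cases hi1 : i = 1
    · rw [hi1, hψ1] at h2; exact one_ne_zero h2
    have h4 : φ = 0 := four φ a c (e i) (e 1) ha hc (he i) (he 1) hac (hea i).symm (hea 1).symm
      (hec i).symm (hec 1).symm (fun h => hi1 (hinj h)) hφa hφc h3 hφ1
    rw [h4, ev_zero] at hφ0
    exact zero_ne_one hφ0
  have hoff : ∀ i z, z ∈ P → z ≠ a → z ≠ c → z ≠ e i → ev (f i) z ≠ 0 := by
    intro i z hz hza hzc hzi h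
    exact hfne i (four (f i) a c (e i) z ha hc (he i) hz hac (hea i).symm hza.symm
      (hec i).symm hzc.symm hzi.symm (hfa i) (hfc i) (hfi i) h)
  have hD : ∀ i j, ev (f i) (e j) = - ev (f j) (e i) := by
    intro i j; rw [hf, hf]; ring
  obtain ⟨i, β, hβ⟩ := tour (fun i j => decide (0 < ev (f i) (e j))) (by
    intro i j hij
    have h1 : ev (f i) (e j) ≠ 0 := hoff i (e j) (he j) (hea j) (hec j) (fun h => hij (hinj h).symm)
    have h2 := hD i j
    rcases lt_or_gt_of_ne h1 with h | h
    · have h3 : ¬ 0 < ev (f i) (e j) := by linarith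
      have h4 : 0 < ev (f j) (e i) := by linarith
      simp [h3, h4]
    · have h4 : ¬ 0 < ev (f j) (e i) := by linarith
      simp [h, h4])
  -- perturb
  have hinj' : Function.Injective ![a, c, e i, b] :=
    inj4 hac (hea i).symm hab (hec i).symm hbc.symm (heb i)
  have hmem' : ∀ k, ![a, c, e i, b] k ∈ P := by
    intro k
    fin_cases k <;> simp [ha, hc, he, hb]
  obtain ⟨F, hF1, hF2⟩ := perturb hP (f i) ![a, c, e i, b] hmem' hinj' (by
      intro k hk
      fin_cases k
      · exact hfa i
      · exact hfc i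
      · exact hfi i
      · exact absurd rfl hk)
    ![if 0 < ev (f i) b then -1 else 1, if 0 < ev (f i) d then -1 else 1, if β then 1 else -1, 0]
  have Fa := hF1 0 (by decide)
  have Fc := hF1 1 (by decide)
  have Fe := hF1 2 (by decide)
  simp only [Matrix.cons_val_zero, Matrix.cons_val_one, Matrix.cons_val_two, Matrix.head_cons,
    Matrix.tail_cons] at Fa Fc Fe
  have Fb := hF2 b hb (hoff i b hb hab.symm hbc (heb i).symm)
  have Fd := hF2 d hd (hoff i d hd had.symm hcd.symm (hed i).symm)
  refine ⟨F, ?_, Fb.2, ?_, Fd.2, ?_, ?_, ?_, ?_⟩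
  · intro h
    have := Fa.2.1 h
    split_ifs at this <;> norm_num at this
  · intro h
    have := Fc.2.1 h
    split_ifs at this <;> norm_num at this
  · intro j
    by_cases hj : j = i
    · subst hj
      intro h
      have := Fe.2.1 h
      split_ifs at this <;> norm_num at this
    · exact (hF2 (e j) (he j) (hoff i (e j) (he j) (hea j) (hec j) (fun h => hj (hinj h)))).2
  · intro h
    have h1 : (0 < ev F a ↔ 0 < ev F b) := by rw [← sg_true, ← sg_true, h]
    rw [Fa.1, Fb.1] at h1
    split_ifs at h1 with h2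
    · have := h1.2 h2; norm_num at this
    · have := h1.1 (by norm_num); exact h2 this
  · intro h
    have h1 : (0 < ev F c ↔ 0 < ev F d) := by rw [← sg_true, ← sg_true, h]
    rw [Fc.1, Fd.1] at h1
    split_ifs at h1 with h2
    · have := h1.2 h2; norm_num at this
    · have := h1.1 (by norm_num); exact h2 this
  · have : (fun j => sg F (e j)) = fun j => if j = i then β else decide (0 < ev (f i) (e j)) := by
      funext j
      rw [Bool.eq_iff_iff, sg_true]
      by_cases hj : j = i
      · subst hj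
        simp only [if_true]
        rw [Fe.1]
        cases β <;> norm_num
      · simp only [hj, if_false, decide_eq_true_eq]
        exact (hF2 (e j) (he j) (hoff i (e j) (he j) (hea j) (hec j) (fun h => hj (hinj h)))).1
    rw [this]
    exact hβ

end Pool.Agent.K3h39.Sep8
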