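import Mathlib
import Pool.Agent.K3h39.Sep8

/-!
# Separating eight points in space by three planes: the end of the proof
-/

set_option autoImplicit false

namespace Pool.Agent.K3h39.Sep8

/-- two balanced sign vectors which together separate the four indices -/
def Cross (s t : Fin 4 → Bool) : Prop := ∀ i j : Fin 4, s i = s j → t i = t j → i = j

instance (s t : Fin 4 → Bool) : Decidable (Cross s t) := by unfold Cross; infer_instance

lemma eta4 (s : Fin 4 → Bool) : s = ![s 0, s 1, s 2, s 3] := by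
  funext i; fin_cases i <;> rfl

lemma type_ex (s : Fin 4 → Bool) (hs : Bal s) : ∃ i : Fin 4, i ≠ 0 ∧ s 0 = s i := by
  have key : ∀ a b c d : Bool, Bal ![a, b, c, d] →
      ∃ i : Fin 4, i ≠ 0 ∧ ![a, b, c, d] 0 = ![a, b, c, d] i := by decide
  have := key (s 0) (s 1) (s 2) (s 3)
  rw [← eta4 s] at this
  exact this hs

lemma cross_of (s t : Fin 4 → Bool) (hs : Bal s) (ht : Bal t) (i : Fin 4) (hi : i ≠ 0)
    (h1 : s 0 = s i) (h2 : t 0 ≠ t i) : Cross s t := by
  have key : ∀ a b c d a' b' c' d' : Bool, ∀ i : Fin 4, i ≠ 0 → Bal ![a, b, c, d] →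
      Bal ![a', b', c', d'] → ![a, b, c, d] 0 = ![a, b, c, d] i →
      ![a', b', c', d'] 0 ≠ ![a', b', c', d'] i → Cross ![a, b, c, d] ![a', b', c', d'] := by
    decide
  have := key (s 0) (s 1) (s 2) (s 3) (t 0) (t 1) (t 2) (t 3) i hi
  rw [← eta4 s, ← eta4 t] at this
  exact this hs ht h1 h2

lemma cross_symm {s t : Fin 4 → Bool} (h : Cross s t) : Cross t s :=
  fun i j h1 h2 => h i j h2 h1

/-- the grid argument -/
lemma grid (T : (Fin 4 → Bool) → (Fin 4 → Bool) → Prop)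
    (hT : ∀ s t, T s t → Bal s ∧ Bal t)
    (h1 : ∀ i : Fin 4, i ≠ 0 → ∃ s t, T s t ∧ s 0 ≠ s i)
    (h2 : ∀ i : Fin 4, i ≠ 0 → ∃ s t, T s t ∧ t 0 ≠ t i) :
    ∃ s t s' t', T s t ∧ T s' t' ∧ Cross s s' ∧ Cross t t' := by
  obtain ⟨s, t, hst, -⟩ := h1 1 (by decide)
  obtain ⟨hs, ht⟩ := hT s t hst
  obtain ⟨i, hi, hsi⟩ := type_ex s hs
  obtain ⟨s', t', hst', hsi'⟩ := h1 i hi
  obtain ⟨hs', ht'⟩ := hT s' t' hst'
  have c1 : Cross s s' := cross_of s s' hs hs' i hi hsi hsi'
  obtain ⟨j, hj, htj⟩ := type_ex t ht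
  by_cases hc : t' 0 = t' j
  · obtain ⟨s'', t'', hst'', htj''⟩ := h2 j hj
    obtain ⟨hs'', ht''⟩ := hT s'' t'' hst''
    have c2 : Cross t t'' := cross_of t t'' ht ht'' j hj htj htj''
    have c3 : Cross t' t'' := cross_of t' t'' ht' ht'' j hj hc htj''
    by_cases hd : s'' 0 = s'' i
    · exact ⟨s', t', s'', t'', hst', hst'', cross_symm (cross_of s'' s' hs'' hs' i hi hd hsi'), c3⟩
    · exact ⟨s, t, s'', t'', hst, hst'', cross_of s s'' hs hs'' i hi hsi hd, c2⟩
  · exact ⟨s, t, s', t', hst, hst', c1, cross_of t t' ht ht' j hj htj hc⟩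

/-- the two other indices -/
lemma other (i : Fin 4) (hi : i ≠ 0) : ∃ k l : Fin 4, k ≠ 0 ∧ l ≠ 0 ∧ k ≠ i ∧ l ≠ i ∧ k ≠ l ∧
    ∀ j : Fin 4, j = 0 ∨ j = i ∨ j = k ∨ j = l := by
  revert i; decide

lemma bal_of (s : Fin 4 → Bool) (i k l : Fin 4) (hi : i ≠ 0) (hk : k ≠ 0) (hl : l ≠ 0)
    (hki : k ≠ i) (hli : l ≠ i) (hkl : k ≠ l) (h1 : s 0 ≠ s i) (h2 : s k ≠ s l) : Bal s := by
  have key : ∀ a b c d : Bool, ∀ i k l : Fin 4, i ≠ 0 → k ≠ 0 → l ≠ 0 → k ≠ i → l ≠ i → k ≠ l →
      ![a, b, c, d] 0 ≠ ![a, b, c, d] i → ![a, b, c, d] k ≠ ![a, b, c, d] l →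
      Bal ![a, b, c, d] := by decide
  have := key (s 0) (s 1) (s 2) (s 3) i k l hi hk hl hki hli hkl
  rw [← eta4 s] at this
  exact this h1 h2

/-- completing a halving plane to a separating triple -/
lemma complete {P : Finset E3} (hP : GP P) (p q : Fin 4 → E3) (hp : ∀ i, p i ∈ P)
    (hq : ∀ i, q i ∈ P) (hpi : Function.Injective p) (hqi : Function.Injective q)
    (hpq : ∀ i j, p i ≠ q j) :
    ∃ F G : E3 × ℝ, (∀ i, ev F (p i) ≠ 0) ∧ (∀ i, ev F (q i) ≠ 0) ∧ (∀ i, ev G (p i) ≠ 0) ∧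
      (∀ i, ev G (q i) ≠ 0) ∧ Cross (fun i => sg F (p i)) (fun i => sg G (p i)) ∧
      Cross (fun i => sg F (q i)) (fun i => sg G (q i)) := by
  let T : (Fin 4 → Bool) → (Fin 4 → Bool) → Prop := fun s t =>
    Bal s ∧ Bal t ∧ ∃ F : E3 × ℝ, (∀ i, ev F (p i) ≠ 0) ∧ (∀ i, ev F (q i) ≠ 0) ∧
      (s = fun i => sg F (p i)) ∧ (t = fun i => sg F (q i))
  obtain ⟨s, t, s', t', ⟨-, -, F, hF1, hF2, rfl, rfl⟩, ⟨-, -, G, hG1, hG2, rfl, rfl⟩, c1, c2⟩ :=
    grid T (fun s t h => ⟨h.1, h.2.1⟩) (by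
      intro i hi
      obtain ⟨k, l, hk, hl, hki, hli, hkl, hall⟩ := other i hi
      obtain ⟨F, f1, f2, f3, f4, f5, f6, f7, f8⟩ := ham hP (p 0) (p i) (p k) (p l) q (hp 0) (hp i)
        (hp k) (hp l) hq hqi (fun h => hi (hpi h).symm) (fun h => hk (hpi h).symm)
        (fun h => hl (hpi h).symm) (fun h => hki (hpi h).symm) (fun h => hli (hpi h).symm)
        (fun h => hkl (hpi h)) (fun j h => hpq 0 j h.symm) (fun j h => hpq i j h.symm)
        (fun j h => hpq k j h.symm) (fun j h => hpq l j h.symm)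
      refine ⟨fun i => sg F (p i), fun i => sg F (q i), ⟨?_, f8, F, ?_, f5, rfl, rfl⟩, f6⟩
      · exact bal_of _ i k l hi hk hl hki hli hkl f6 f7
      · intro j
        rcases hall j with rfl | rfl | rfl | rfl <;> assumption) (by
      intro i hi
      obtain ⟨k, l, hk, hl, hki, hli, hkl, hall⟩ := other i hi
      obtain ⟨F, f1, f2, f3, f4, f5, f6, f7, f8⟩ := ham hP (q 0) (q i) (q k) (q l) p (hq 0) (hq i)
        (hq k) (hq l) hp hpi (fun h => hi (hqi h).symm) (fun h => hk (hqi h).symm)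
        (fun h => hl (hqi h).symm) (fun h => hki (hqi h).symm) (fun h => hli (hqi h).symm)
        (fun h => hkl (hqi h)) (fun j h => hpq j 0 h) (fun j h => hpq j i h)
        (fun j h => hpq j k h) (fun j h => hpq j l h)
      refine ⟨fun i => sg F (p i), fun i => sg F (q i), ⟨f8, ?_, F, f5, ?_, rfl, rfl⟩, f6⟩
      · exact bal_of _ i k l hi hk hl hki hli hkl f6 f7
      · intro j
        rcases hall j with rfl | rfl | rfl | rfl <;> assumption)
  exact ⟨F, G, hF1, hF2, hG1, hG2, c1, c2⟩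

/-- enumeration of a finite set with four elements -/
lemma enum4 (S : Finset E3) (hS : S.card = 4) : ∃ p : Fin 4 → E3, Function.Injective p ∧
    ∀ x, x ∈ S ↔ ∃ i, p i = x := by
  let e := S.equivFinOfCardEq hS
  refine ⟨fun i => (e.symm i : E3), fun i j h => e.symm.injective (Subtype.ext h), fun x => ?_⟩
  constructor
  · intro hx
    exact ⟨e ⟨x, hx⟩, by simp⟩
  · rintro ⟨i, rfl⟩
    exact (e.symm i).2

/-- `v₀, v₁, v₂` with the numbers `t₀, t₁, t₂` are three planes which separate the points of `P` -/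
def Sep (P : Finset E3) (F : Fin 3 → E3 × ℝ) : Prop :=
  (∀ i, (F i).1 ≠ 0) ∧ (∀ i, ∀ x ∈ P, ev (F i) x ≠ 0) ∧
    ∀ s : Fin 3 → Bool, ∃! x, x ∈ P ∧ ∀ i, sg (F i) x = s i

theorem sep_of_half {P : Finset E3} (hP : GP P) (h8 : P.card = 8) (F₁ : E3 × ℝ)
    (hF : ∀ x ∈ P, ev F₁ x ≠ 0) (h4 : (P.filter (fun x => 0 < ev F₁ x)).card = 4) :
    ∃ F : Fin 3 → E3 × ℝ, F 0 = F₁ ∧ Sep P F := by
  classical
  have h4' : (P.filter (fun x => ¬ 0 < ev F₁ x)).card = 4 := by
    have := Finset.card_filter_add_card_filter_not (s := P) (fun x => 0 < ev F₁ x)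
    omega
  obtain ⟨p, hpi, hp⟩ := enum4 _ h4
  obtain ⟨q, hqi, hq⟩ := enum4 _ h4'
  have hpP : ∀ i, p i ∈ P ∧ 0 < ev F₁ (p i) := fun i => by
    have := (hp (p i)).2 ⟨i, rfl⟩
    rw [Finset.mem_filter] at this
    exact this
  have hqP : ∀ i, q i ∈ P ∧ ¬ 0 < ev F₁ (q i) := fun i => by
    have := (hq (q i)).2 ⟨i, rfl⟩
    rw [Finset.mem_filter] at this
    exact this
  have hpq : ∀ i j, p i ≠ q j := fun i j h => (hqP j).2 (h ▸ (hpP i).2)
  have hcov : ∀ x ∈ P, (∃ i, p i = x) ∨ (∃ i, q i = x) := by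
    intro x hx
    by_cases h : 0 < ev F₁ x
    · exact Or.inl ((hp x).1 (by rw [Finset.mem_filter]; exact ⟨hx, h⟩))
    · exact Or.inr ((hq x).1 (by rw [Finset.mem_filter]; exact ⟨hx, h⟩))
  obtain ⟨F, G, f1, f2, f3, f4, c1, c2⟩ := complete hP p q (fun i => (hpP i).1)
    (fun i => (hqP i).1) hpi hqi hpq
  have hinj : ∀ x ∈ P, ∀ y ∈ P, (∀ i : Fin 3, sg (![F₁, F, G] i) x = sg (![F₁, F, G] i) y) →
      x = y := by
    intro x hx y hy h
    have h0 : sg F₁ x = sg F₁ y := h 0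
    have h1 : sg F x = sg F y := h 1
    have h2 : sg G x = sg G y := h 2
    rcases hcov x hx with ⟨i, rfl⟩ | ⟨i, rfl⟩ <;> rcases hcov y hy with ⟨j, rfl⟩ | ⟨j, rfl⟩
    · rw [c1 i j h1 h2]
    · exfalso
      have h3 : sg F₁ (p i) = true := sg_true.2 (hpP i).2
      rw [h0] at h3
      exact (hqP j).2 (sg_true.1 h3)
    · exfalso
      have h3 : sg F₁ (p j) = true := sg_true.2 (hpP j).2
      rw [← h0] at h3
      exact (hqP i).2 (sg_true.1 h3)
    · rw [c2 i j h1 h2]
  have hne : ∀ i : Fin 3, ∀ x ∈ P, ev (![F₁, F, G] i) x ≠ 0 := by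
    intro i x hx
    fin_cases i
    · exact hF x hx
    · rcases hcov x hx with ⟨j, rfl⟩ | ⟨j, rfl⟩
      · exact f1 j
      · exact f2 j
    · rcases hcov x hx with ⟨j, rfl⟩ | ⟨j, rfl⟩
      · exact f3 j
      · exact f4 j
  have hsurj : ∀ s : Fin 3 → Bool, ∃ x ∈ P, ∀ i, sg (![F₁, F, G] i) x = s i := by
    have himg : (P.image (fun x => fun i : Fin 3 => sg (![F₁, F, G] i) x)) = Finset.univ := by
      apply Finset.eq_univ_of_card
      rw [Finset.card_image_of_injOn, h8]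
      · simp
      · intro x hx y hy h
        exact hinj x hx y hy (fun i => congrFun h i)
    intro s
    have := Finset.mem_univ s
    rw [← himg, Finset.mem_image] at this
    obtain ⟨x, hx, h⟩ := this
    exact ⟨x, hx, fun i => congrFun h i⟩
  refine ⟨![F₁, F, G], rfl, ?_, hne, ?_⟩
  · -- the planes are planes
    intro i hi
    obtain ⟨x, hx, h1⟩ := hsurj (fun _ => true)
    obtain ⟨y, hy, h2⟩ := hsurj (fun _ => false)
    have h3 := sg_true.1 (h1 i)
    have h4 : ¬ 0 < ev (![F₁, F, G] i) y := by rw [← sg_true, h2 i]; simp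
    apply h4
    unfold ev at h3 ⊢
    rw [hi, inner_zero_left] at h3 ⊢
    exact h3
  · intro s
    obtain ⟨x, hx, h1⟩ := hsurj s
    refine ⟨x, ⟨hx, h1⟩, ?_⟩
    rintro y ⟨hy, h2⟩
    exact hinj y hy x hx (fun i => by rw [h2 i, h1 i])

/-- a direction in which the points of `P` have different heights -/
lemma direction (P : Finset E3) : ∃ v : E3, ∀ x ∈ P, ∀ y ∈ P, inner ℝ v x = inner ℝ v y → x = y := by
  classical
  let V : ℝ → E3 := fun s => WithLp.toLp 2 ![1, s, s ^ 2]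
  have hV : ∀ s x, inner ℝ (V s) x = x 0 + s * x 1 + s ^ 2 * x 2 := by
    intro s x
    simp only [V, PiLp.inner_apply, Fin.sum_univ_three]
    simp
    ring
  have hfin : ∀ x y : E3, x ≠ y → {s : ℝ | inner ℝ (V s) x = inner ℝ (V s) y}.Finite := by
    intro x y hxy
    let Q : Polynomial ℝ := Polynomial.C (x 0 - y 0) + Polynomial.C (x 1 - y 1) * Polynomial.X +
      Polynomial.C (x 2 - y 2) * Polynomial.X ^ 2
    have hQ : Q ≠ 0 := by
      intro h
      apply hxy
      have c0 := congrArg (Polynomial.eval 0) h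
      have c1 := congrArg (Polynomial.eval 1) h
      have c2 := congrArg (Polynomial.eval (-1)) h
      simp only [Q, Polynomial.eval_add, Polynomial.eval_mul, Polynomial.eval_C,
        Polynomial.eval_X, Polynomial.eval_pow, Polynomial.eval_zero] at c0 c1 c2
      ext i
      fin_cases i
      · show x 0 = y 0
        linarith
      · show x 1 = y 1
        linarith
      · show x 2 = y 2
        linarith
    refine (Q.roots.toFinset.finite_toSet).subset ?_
    intro s hs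
    replace hs : inner ℝ (V s) x = inner ℝ (V s) y := hs
    rw [hV, hV] at hs
    simp only [Finset.mem_coe, Multiset.mem_toFinset, Polynomial.mem_roots hQ, Polynomial.IsRoot.def]
    simp only [Q, Polynomial.eval_add, Polynomial.eval_mul, Polynomial.eval_C, Polynomial.eval_X,
      Polynomial.eval_pow]
    linarith
  have hU : (⋃ x ∈ P, ⋃ y ∈ P, {s : ℝ | x ≠ y ∧ inner ℝ (V s) x = inner ℝ (V s) y}).Finite := by
    refine Set.Finite.biUnion P.finite_toSet fun x _ => Set.Finite.biUnion P.finite_toSet fun y _ => ?_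
    by_cases hxy : x = y
    · simp [hxy]
    · exact (hfin x y hxy).subset fun s hs => hs.2
  obtain ⟨s, hs⟩ := hU.exists_notMem
  refine ⟨V s, fun x hx y hy h => ?_⟩
  by_contra hxy
  apply hs
  simp only [Set.mem_iUnion]
  exact ⟨x, hx, y, hy, hxy, h⟩

/-- a halving plane -/
lemma half (P : Finset E3) (h8 : P.card = 8) : ∃ F : E3 × ℝ, (∀ x ∈ P, ev F x ≠ 0) ∧
    (P.filter (fun x => 0 < ev F x)).card = 4 := by
  classical
  obtain ⟨v, hv⟩ := direction P
  let A : Finset ℝ := P.image (fun x => inner ℝ v x)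
  have hA : A.card = 8 := by
    rw [Finset.card_image_of_injOn, h8]
    intro x hx y hy h
    exact hv x hx y hy h
  let a := A.orderEmbOfFin hA
  have ha : ∀ r ∈ A, ∃ i, a i = r := by
    intro r hr
    have := Finset.range_orderEmbOfFin A hA
    have h1 : r ∈ Set.range a := by rw [this]; exact hr
    exact h1
  set t := (a 3 + a 4) / 2 with ht
  have h34 : a 3 < a 4 := a.strictMono (by decide)
  have hlt : ∀ i : Fin 8, (t < a i ↔ 4 ≤ i) ∧ a i ≠ t := by
    intro i
    by_cases hi : 4 ≤ i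
    · have : a 4 ≤ a i := a.monotone hi
      refine ⟨⟨fun _ => hi, fun _ => by linarith⟩, by intro h; linarith⟩
    · have : a i ≤ a 3 := a.monotone (by omega)
      refine ⟨⟨fun h => by linarith, fun h => absurd h hi⟩, by intro h; linarith⟩
  refine ⟨(v, t), fun x hx => ?_, ?_⟩
  · obtain ⟨i, hi⟩ := ha _ (Finset.mem_image_of_mem _ hx)
    have := (hlt i).2
    rw [hi] at this
    simp only [ev]
    intro h
    exact this (by linarith)
  · have e1 : (P.filter (fun x => 0 < ev (v, t) x)).card = (A.filter (fun r => t < r)).card := by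
      rw [← Finset.card_image_of_injOn (s := P.filter (fun x => 0 < ev (v, t) x))
        (f := fun x => inner ℝ v x)]
      · congr 1
        ext r
        rw [Finset.mem_image, Finset.mem_filter, Finset.mem_image]
        constructor
        · rintro ⟨x, hx, rfl⟩
          rw [Finset.mem_filter] at hx
          have h := hx.2
          simp only [ev] at h
          exact ⟨⟨x, hx.1, rfl⟩, by linarith⟩
        · rintro ⟨⟨x, hx, rfl⟩, h⟩
          refine ⟨x, ?_, rfl⟩
          rw [Finset.mem_filter]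
          refine ⟨hx, ?_⟩
          simp only [ev]
          linarith
      · intro x hx y hy h
        rw [Finset.mem_coe, Finset.mem_filter] at hx hy
        exact hv x hx.1 y hy.1 h
    rw [e1]
    have e2 : A.filter (fun r => t < r) = (Finset.univ.filter (fun i : Fin 8 => 4 ≤ i)).image a := by
      ext r
      simp only [Finset.mem_image, Finset.mem_filter, Finset.mem_univ, true_and]
      constructor
      · rintro ⟨hr, h⟩
        obtain ⟨i, rfl⟩ := ha r hr
        exact ⟨i, (hlt i).1.1 h, rfl⟩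
      · rintro ⟨i, hi, rfl⟩
        exact ⟨Finset.orderEmbOfFin_mem A hA i, (hlt i).1.2 hi⟩
    rw [e2, Finset.card_image_of_injective _ a.injective]
    decide

end Pool.Agent.K3h39.Sep8
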